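import Mathlib
import Pool.Agent.R494.RC4
import Pool.Agent.H305R2.MertensE

/-! Four squares with `p` and `p - 2` chosen: the law of large numbers for a general profile
(helper233; the proof follows Pool.Agent.R494.RC4). -/

set_option autoImplicit false
set_option linter.unusedSectionVars false

namespace Pool.Agent.N233.GM

open Finset Pool.Agent.W65.FS Filter Asymptotics MeasureTheory Pool.Agent.R494.RC
open Pool.Agent.R528.RM
open scoped Topology

open Classical in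
/-- the representations with both values in `G` -/
noncomputable def goodG (G : Set ℕ) (n : ℕ) : Finset (Fin 4 → ℤ) :=
  (vec n).filter (fun X => val X ∈ G ∧ val X - 2 ∈ G)

section

variable {Ω : Type} {m0 : MeasurableSpace Ω} {μ : Measure Ω} [IsProbabilityMeasure μ]
  {ℱ : Filtration ℕ m0} {A : ℕ → Set Ω}

theorem law_gen (hA : ∀ n, MeasurableSet[ℱ n] (A n)) (ρ : ℕ → ℝ) (hρ : ∀ n, 0 ≤ ρ n ∧ ρ n ≤ 1)
    (hprof : ∀ᵐ ω ∂μ, ∀ ε : ℝ, 0 < ε → ∀ᶠ n : ℕ in atTop,
      |dens μ ℱ A n ω - ρ (n + 1)| ≤ ε * ρ (n + 1))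
    (G : Set ℕ) (hlow : ∀ᶠ m : ℕ in atTop, m ∈ G → 1 / Real.log m ≤ ρ m)
    (hmany : ∀ᶠ n : ℕ in atTop, Odd n → (n : ℝ) ^ (1 - 1 / 8 : ℝ) ≤ (goodG G n).card) :
    ∀ᵐ ω ∂μ, ∀ ε : ℝ, 0 < ε → ∀ᶠ n : ℕ in atTop, Odd n →
      |∑ X ∈ goodG G n, In A (val X - 2) ω * In A (val X) ω -
        ∑ X ∈ goodG G n, ρ (val X - 2) * ρ (val X)| ≤
      ε * ∑ X ∈ goodG G n, ρ (val X - 2) * ρ (val X) := by
  classical
  have hmemlay : ∀ x t : ℕ, ∀ P ∈ lay (goodG G x) t, x ≤ P := by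
    intro x t P hP
    obtain ⟨X, hX, rfl⟩ := mem_image.1 (mem_filter.1 hP).1
    exact val_low (mem_filter.1 hX).1
  have h := Pool.Agent.R960.Fam.fam_law (μ := μ) (ℱ := ℱ) (A := A) hA (ρ := ρ)
    hρ hprof 2 2 1 (by norm_num)
    (fun n : ℕ => ({n} : Finset ℕ) ×ˢ range n)
    (by
      filter_upwards with x
      rw [card_product, card_singleton, card_range, one_mul, pow_one])
    (fun a : ℕ × ℕ => lay (goodG G a.1) a.2) (fun _ P => {P - 2, P}) (fun n => n - 2)
    (tendsto_sub_atTop_nat 2)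
    (by
      filter_upwards [eventually_ge_atTop 3] with x hx a ha P hP
      obtain ⟨a1, a2⟩ := a
      rw [mem_product, mem_singleton] at ha
      obtain ⟨ha1, -⟩ := ha
      simp only at ha1
      subst ha1
      have h1 := hmemlay a1 a2 P hP
      refine ⟨card_pair (by omega), ?_⟩
      intro m hm
      rw [mem_insert, mem_singleton] at hm
      omega)
    (by
      filter_upwards [eventually_ge_atTop 3] with x hx a ha m
      obtain ⟨a1, a2⟩ := a
      rw [mem_product, mem_singleton] at ha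
      obtain ⟨ha1, -⟩ := ha
      simp only at ha1
      subst ha1
      have h1 : {i | i ∈ lay (goodG G a1) a2 ∧ m ∈ ({i - 2, i} : Finset ℕ)} ⊆ (({m, m + 2} : Finset ℕ) : Set ℕ) := by
        rintro i ⟨hi, hm⟩
        have h2 := hmemlay a1 a2 i hi
        rw [mem_insert, mem_singleton] at hm
        rw [mem_coe, mem_insert, mem_singleton]
        omega
      refine (Set.ncard_le_ncard h1 (finite_toSet _)).trans ?_
      rw [Set.ncard_coe_finset]
      exact card_le_two)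
  have hlow' : ∃ m0 : ℕ, ∀ m : ℕ, m0 ≤ m → m ∈ G → 1 / Real.log m ≤ ρ m :=
    eventually_atTop.1 hlow
  obtain ⟨m1, hm1⟩ := hlow'
  filter_upwards [h] with ω hω ε hε
  set δ : ℝ := ε / 2 with hδdef
  have hδ : 0 < δ := by positivity
  filter_upwards [hω δ hδ, err_small (1 / 2) δ (by norm_num) hδ, few, hmany,
    eventually_ge_atTop (m1 + 7)] with n h1 h3 h4 h5 h6 hn
  have hn5 : (7 : ℝ) ≤ n := by exact_mod_cast (by omega : 7 ≤ n)
  have hn0 : (0 : ℝ) < n := by linarith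
  have hL : 0 < Real.log n := Real.log_pos (by linarith)
  set N : ℝ := ((goodG G n).card : ℝ) with hN
  set M0 : ℝ := N * ((1 / 2) / Real.log n) ^ 2 with hM0
  set R : ℝ := ∑ X ∈ goodG G n, In A (val X - 2) ω * In A (val X) ω with hR
  set E : ℝ := ∑ X ∈ goodG G n, ρ (val X - 2) * ρ (val X) with hE
  -- the lower bound for the expected number
  have hlog7 : Real.log (7 * n) ≤ 2 * Real.log n := by
    rw [Real.log_mul (by norm_num) hn0.ne']
    have := Real.log_le_log (by norm_num) hn5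
    linarith
  have hval : ∀ m : ℕ, n ≤ m + 2 → m ≤ 7 * n → m ∈ G → (1 / 2) / Real.log n ≤ ρ m := by
    intro m k1 k2 k3
    refine le_trans ?_ (hm1 m (by omega) k3)
    have hm2 : (1 : ℝ) < m := by exact_mod_cast (by omega : 1 < m)
    have hLm : 0 < Real.log m := Real.log_pos hm2
    have k4 : Real.log m ≤ 2 * Real.log n := by
      refine le_trans (Real.log_le_log (by linarith) ?_) hlog7
      exact_mod_cast k2
    rw [div_le_div_iff₀ hL hLm]
    linarith
  have hME : M0 ≤ E := by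
    rw [hM0, hE, hN, show ((goodG G n).card : ℝ) * ((1 / 2) / Real.log n) ^ 2 =
      ∑ X ∈ goodG G n, ((1 / 2) / Real.log n) ^ 2 by rw [sum_const, nsmul_eq_mul]]
    refine sum_le_sum fun (X : Fin 4 → ℤ) hX => ?_
    obtain ⟨hX1, hX2, hX3⟩ := mem_filter.1 hX
    have g1 := val_low hX1
    have g2 := val_up hX1
    have a1 := hval (val X) (by omega) g2 hX2
    have a2 := hval (val X - 2) (by omega) (by omega) hX3
    rw [pow_two]
    exact mul_le_mul a2 a1 (by positivity) (hρ _).1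
  set B : ℕ := ⌊(n : ℝ) ^ (5 / 8 : ℝ)⌋₊ with hB
  have hBr : (B : ℝ) ≤ (n : ℝ) ^ (5 / 8 : ℝ) := Nat.floor_le (by positivity)
  have hfib : ∀ P : ℕ, ((goodG G n).filter (fun X : Fin 4 → ℤ => Pool.Agent.R494.RC.val X = P)).card ≤ B := by
    intro P
    apply Nat.le_floor
    refine le_trans ?_ (h4 P)
    exact_mod_cast card_le_card (filter_subset_filter _ (filter_subset _ _))
  have hBn : B ≤ n := by
    have h7 : (B : ℝ) ≤ n := by
      refine hBr.trans ?_
      calc (n : ℝ) ^ (5 / 8 : ℝ) ≤ (n : ℝ) ^ (1 : ℝ) :=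
            Real.rpow_le_rpow_of_exponent_le (by linarith) (by norm_num)
        _ = n := Real.rpow_one _
    exact_mod_cast h7
  have hfibn : ∀ P : ℕ, ((goodG G n).filter (fun X : Fin 4 → ℤ => Pool.Agent.R494.RC.val X = P)).card ≤ n := fun P => (hfib P).trans hBn
  have eR : R = ∑ t ∈ range n, ∑ P ∈ lay (goodG G n) t, In A (P - 2) ω * In A P ω :=
    layer (goodG G n) n hfibn (fun P => In A (P - 2) ω * In A P ω)
  have eE : E = ∑ t ∈ range n, ∑ P ∈ lay (goodG G n) t, ρ (P - 2) * ρ P :=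
    layer (goodG G n) n hfibn (fun P => ρ (P - 2) * ρ P)
  have hstep : ∀ t ∈ range n, |∑ P ∈ lay (goodG G n) t, In A (P - 2) ω * In A P ω -
      ∑ P ∈ lay (goodG G n) t, ρ (P - 2) * ρ P| ≤
      8 * (√(6 * Real.log n) * √((lay (goodG G n) t).card : ℝ)) +
        δ * ∑ P ∈ lay (goodG G n) t, ρ (P - 2) * ρ P := by
    intro t ht
    have h7 := h1 (n, t) (mem_product.2 ⟨mem_singleton_self _, ht⟩)
    simp only at h7
    have h8 : ∀ g : ℕ → ℝ, ∑ i ∈ lay (goodG G n) t, ∏ m ∈ ({i - 2, i} : Finset ℕ), g m =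
        ∑ P ∈ lay (goodG G n) t, g (P - 2) * g P := by
      intro g
      refine sum_congr rfl fun P hP => ?_
      have := hmemlay n t P hP
      exact prod_pair (by omega)
    rw [h8 (fun m => In A m ω), h8 ρ] at h7
    refine h7.trans (le_of_eq ?_)
    rw [← Real.sqrt_mul (by positivity)]
    push_cast
    norm_num
  have hRE : |R - E| ≤ 8 * √(6 * Real.log n * ((n : ℝ) ^ (5 / 8 : ℝ) * N)) + δ * E := by
    rw [eR, eE, ← sum_sub_distrib]
    refine (abs_sum_le_sum_abs _ _).trans ((sum_le_sum hstep).trans ?_)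
    rw [sum_add_distrib, ← mul_sum, ← mul_sum, ← mul_sum]
    gcongr
    have h7 := layer_sqrt (goodG G n) B n hfib hBn
    calc √(6 * Real.log n) * ∑ t ∈ range n, √((lay (goodG G n) t).card : ℝ)
        ≤ √(6 * Real.log n) * √((B : ℝ) * (goodG G n).card) := by gcongr
      _ ≤ √(6 * Real.log n) * √((n : ℝ) ^ (5 / 8 : ℝ) * (goodG G n).card) := by gcongr
      _ = _ := by rw [← Real.sqrt_mul (by positivity)]
  have h8 := h3 N (h5 hn)
  rw [← hM0] at h8
  calc |R - E| ≤ 8 * √(6 * Real.log n * ((n : ℝ) ^ (5 / 8 : ℝ) * N)) + δ * E := hRE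
    _ ≤ δ * M0 + δ * E := by gcongr
    _ ≤ δ * E + δ * E := by gcongr
    _ = ε * E := by rw [hδdef]; ring

end

/-- `m` has no prime factor at most `z m` -/
def Rough (z : ℕ → ℕ) (m : ℕ) : Prop := ∀ q, q.Prime → q ≤ z m → ¬ q ∣ m

/-- `∏_{q ≤ x} (1 - 1 / q)⁻¹` -/
noncomputable def W (x : ℕ) : ℝ := ∏ q ∈ (Finset.Icc 1 x).filter Nat.Prime, (1 - (q : ℝ)⁻¹)⁻¹

open Classical in
/-- the density `W (z m) / log m` at the rough numbers -/
noncomputable def rho (z : ℕ → ℕ) (m : ℕ) : ℝ := if Rough z m then W (z m) / Real.log m else 0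

lemma fac_ge (q : ℕ) (hq : q.Prime) : 1 ≤ (1 - (q : ℝ)⁻¹)⁻¹ := by
  have hq2 : (1 : ℝ) < q := by exact_mod_cast hq.one_lt
  have h1 : (q : ℝ)⁻¹ < 1 := inv_lt_one_of_one_lt₀ hq2
  have h2 : 0 < (q : ℝ)⁻¹ := by positivity
  rw [one_le_inv₀ (by linarith)]
  linarith

lemma W_ge (x : ℕ) : 1 ≤ W x := by
  unfold W
  have : ∀ q ∈ (Finset.Icc 1 x).filter Nat.Prime, 1 ≤ (1 - (q : ℝ)⁻¹)⁻¹ :=
    fun q hq => fac_ge q (mem_filter.1 hq).2
  calc (1 : ℝ) = ∏ q ∈ (Finset.Icc 1 x).filter Nat.Prime, (1 : ℝ) := by simp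
    _ ≤ _ := Finset.prod_le_prod (fun _ _ => zero_le_one) this

lemma W_mono {x y : ℕ} (h : x ≤ y) : W x ≤ W y := by
  unfold W
  have hsub : (Finset.Icc 1 x).filter Nat.Prime ⊆ (Finset.Icc 1 y).filter Nat.Prime :=
    filter_subset_filter _ (Finset.Icc_subset_Icc_right h)
  rw [← Finset.prod_sdiff hsub]
  have h1 : (1 : ℝ) ≤ ∏ q ∈ (Finset.Icc 1 y).filter Nat.Prime \ (Finset.Icc 1 x).filter Nat.Prime, (1 - (q : ℝ)⁻¹)⁻¹ := by
    calc (1 : ℝ) = ∏ q ∈ (Finset.Icc 1 y).filter Nat.Prime \ (Finset.Icc 1 x).filter Nat.Prime, (1 : ℝ) := by simp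
      _ ≤ _ := Finset.prod_le_prod (fun _ _ => zero_le_one)
        fun q hq => fac_ge q (mem_filter.1 (Finset.mem_sdiff.1 hq).1).2
  have h2 : (0 : ℝ) ≤ ∏ q ∈ (Finset.Icc 1 x).filter Nat.Prime, (1 - (q : ℝ)⁻¹)⁻¹ :=
    prod_nonneg fun q hq => le_trans zero_le_one (fac_ge q (mem_filter.1 hq).2)
  nlinarith

lemma W_bound : ∃ C₁ C₂ : ℝ, 0 < C₁ ∧ 0 < C₂ ∧ ∀ x : ℕ, W x ≤ C₁ + C₂ * Real.log x := by
  have h := Pool.Agent.H305R2.mertens_three
  have h1 : ∀ᶠ N : ℕ in atTop, W N / Real.log N < Real.exp Real.eulerMascheroniConstant + 1 :=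
    h.eventually (gt_mem_nhds (by linarith))
  obtain ⟨N0, hN0⟩ := eventually_atTop.1 (h1.and (log_tendsto.eventually_gt_atTop 0))
  refine ⟨W N0, Real.exp Real.eulerMascheroniConstant + 1, lt_of_lt_of_le one_pos (W_ge _), by positivity, ?_⟩
  intro x
  have hx0 : 0 ≤ Real.log (x : ℝ) := Real.log_natCast_nonneg x
  rcases le_total x N0 with h2 | h2
  · have := W_mono h2
    have : 0 ≤ (Real.exp Real.eulerMascheroniConstant + 1) * Real.log x := by positivity
    linarith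
  · obtain ⟨g1, g2⟩ := hN0 x h2
    rw [div_lt_iff₀ g2] at g1
    have := W_ge N0
    linarith

/-- the densities stay below one when the sieve stays below a small power -/
lemma W_small : ∃ δ : ℝ, 0 < δ ∧ ∀ z : ℕ → ℕ, (∀ᶠ n : ℕ in atTop, (z n : ℝ) ≤ (n : ℝ) ^ δ) →
    ∀ᶠ n : ℕ in atTop, W (z n) / Real.log n < 1 := by
  obtain ⟨C₁, C₂, hC₁, hC₂, hW⟩ := W_bound
  refine ⟨1 / (2 * C₂), by positivity, fun z hz => ?_⟩
  filter_upwards [hz, log_tendsto.eventually_gt_atTop (4 * C₁), eventually_gt_atTop 1] with n h1 h2 h3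
  have hn : (1 : ℝ) < n := by exact_mod_cast h3
  have hL : 0 < Real.log n := Real.log_pos hn
  rw [div_lt_one hL]
  have h4 : Real.log (z n) ≤ 1 / (2 * C₂) * Real.log n := by
    rcases Nat.eq_zero_or_pos (z n) with h5 | h5
    · rw [h5, Nat.cast_zero, Real.log_zero]
      positivity
    · have h6 : (0 : ℝ) < z n := by exact_mod_cast h5
      have h7 := Real.log_le_log h6 h1
      rwa [Real.log_rpow (by linarith)] at h7
  have h5 := hW (z n)
  have h6 : C₂ * Real.log (z n) ≤ 1 / 2 * Real.log n := by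
    calc C₂ * Real.log (z n) ≤ C₂ * (1 / (2 * C₂) * Real.log n) := by gcongr
      _ = 1 / 2 * Real.log n := by field_simp
  linarith

open Classical in
/-- the density, at most one -/
noncomputable def rho1 (z : ℕ → ℕ) (m : ℕ) : ℝ := if Rough z m then min 1 (W (z m) / Real.log m) else 0

lemma rho1_bounds (z : ℕ → ℕ) (n : ℕ) : 0 ≤ rho1 z n ∧ rho1 z n ≤ 1 := by
  unfold rho1
  have h1 : 0 ≤ W (z n) := zero_le_one.trans (W_ge _)
  have h2 := Real.log_natCast_nonneg n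
  split_ifs
  · exact ⟨by positivity, min_le_left _ _⟩
  · exact ⟨le_rfl, zero_le_one⟩

lemma rho1_eq (z : ℕ → ℕ) (n : ℕ) (h : W (z n) / Real.log n < 1) : rho1 z n = rho z n := by
  unfold rho1 rho
  rw [min_eq_right h.le]

section

variable {Ω : Type} {m0 : MeasurableSpace Ω} {μ : Measure Ω} [IsProbabilityMeasure μ]
  {ℱ : Filtration ℕ m0} {A : ℕ → Set Ω}

/-- the densities follow the profile -/
lemma profile (z : ℕ → ℕ) (hV : ∀ᶠ n : ℕ in atTop, W (z n) / Real.log n < 1)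
    (hcop : ∀ n, ¬ Rough z n → A n = ∅)
    (hd : ∀ᵐ ω ∂μ, Tendsto (fun n : ℕ => Pool.Agent.R528.RM.dens μ ℱ A n ω * Real.log n / W (z (n + 1)))
      (atTop ⊓ 𝓟 {n : ℕ | Rough z (n + 1)}) (𝓝 1)) :
    ∀ᵐ ω ∂μ, ∀ ε : ℝ, 0 < ε → ∀ᶠ n : ℕ in atTop,
      |Pool.Agent.R528.RM.dens μ ℱ A n ω - rho1 z (n + 1)| ≤ ε * rho1 z (n + 1) := by
  have hz' : ∀ᵐ ω ∂μ, ∀ n, ¬ Rough z (n + 1) → Pool.Agent.R528.RM.dens μ ℱ A n ω = 0 := by
    rw [ae_all_iff]
    intro n
    by_cases h : Rough z (n + 1)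
    · exact Eventually.of_forall fun ω h2 => absurd h h2
    · have h1 : Pool.Agent.R528.RM.dens μ ℱ A n =ᵐ[μ] 0 := by
        unfold Pool.Agent.R528.RM.dens
        rw [hcop _ h, Set.indicator_empty]
        rw [show (fun _ : Ω => (0 : ℝ)) = 0 from rfl, condExp_zero]
      filter_upwards [h1] with ω hω _
      exact hω
  filter_upwards [hz', hd] with ω hω1 hω2 ε hε
  have h1 : Tendsto (fun n : ℕ => Pool.Agent.R528.RM.dens μ ℱ A n ω * Real.log ((n + 1 : ℕ) : ℝ) / W (z (n + 1)))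
      (atTop ⊓ 𝓟 {n : ℕ | Rough z (n + 1)}) (𝓝 1) := by
    have h2 := hω2.mul (log_succ_ratio.mono_left (inf_le_left : atTop ⊓ 𝓟 {n : ℕ | Rough z (n + 1)} ≤ atTop))
    rw [mul_one] at h2
    refine h2.congr' ?_
    apply Filter.Eventually.filter_mono inf_le_left
    filter_upwards [eventually_gt_atTop 1] with n hn
    have hn' : (1 : ℝ) < n := by exact_mod_cast hn
    have hl : 0 < Real.log (n : ℝ) := Real.log_pos hn'
    field_simp
  have h2 := (Metric.tendsto_nhds.1 h1) ε hε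
  rw [eventually_inf_principal] at h2
  have h3 : ∀ᶠ n : ℕ in atTop, W (z (n + 1)) / Real.log ((n + 1 : ℕ) : ℝ) < 1 :=
    (tendsto_add_atTop_nat 1).eventually hV
  filter_upwards [h2, h3, eventually_gt_atTop 2] with n hn hn2 hn3
  by_cases hcp : Rough z (n + 1)
  · have h4 := hn hcp
    have hl : 0 < Real.log ((n + 1 : ℕ) : ℝ) := Real.log_pos (by push_cast; have : (2 : ℝ) < n := by exact_mod_cast hn3
                                                                 linarith)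
    have hV : 0 < W (z (n + 1)) := lt_of_lt_of_le one_pos (W_ge _)
    have e1 : rho1 z (n + 1) = W (z (n + 1)) / Real.log ((n + 1 : ℕ) : ℝ) := by
      unfold rho1
      rw [if_pos hcp, min_eq_right hn2.le]
    rw [e1]
    rw [Real.dist_eq] at h4
    have e2 : Pool.Agent.R528.RM.dens μ ℱ A n ω - W (z (n + 1)) / Real.log ((n + 1 : ℕ) : ℝ) =
        (Pool.Agent.R528.RM.dens μ ℱ A n ω * Real.log ((n + 1 : ℕ) : ℝ) / W (z (n + 1)) - 1) * (W (z (n + 1)) / Real.log ((n + 1 : ℕ) : ℝ)) := by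
      field_simp
    have h5 : 0 < W (z (n + 1)) / Real.log ((n + 1 : ℕ) : ℝ) := by positivity
    rw [e2, abs_mul, abs_of_pos h5]
    exact mul_le_mul_of_nonneg_right h4.le h5.le
  · rw [hω1 n hcp]
    have e1 : rho1 z (n + 1) = 0 := by
      unfold rho1
      rw [if_neg hcp]
    rw [e1]
    simp

end

/-- many rough representations -/
lemma many_rough (ε : ℝ) (hε : 0 < ε) : ∃ δ : ℝ, 0 < δ ∧ ∀ z : ℕ → ℕ,
    (∀ᶠ n : ℕ in atTop, (z n : ℝ) ≤ (n : ℝ) ^ δ) →
    ∀ᶠ n : ℕ in atTop, Odd n → (n : ℝ) ^ (1 - ε) ≤ (goodG {m | Rough z m} n).card := by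
  classical
  obtain ⟨_, δ, hδ, c, hc, hS⟩ := uniform (ε / 2) (by positivity)
  refine ⟨δ / 2, by positivity, fun z hz => ?_⟩
  obtain ⟨m1, hm1⟩ := eventually_atTop.1 hz
  have e2 : ∀ᶠ n : ℕ in atTop, 1 / c ≤ (n : ℝ) ^ (ε / 2) :=
    ((tendsto_rpow_atTop (by positivity)).comp tendsto_natCast_atTop_atTop).eventually_ge_atTop _
  filter_upwards [e2, eventually_ge_atTop (m1 + 7)] with n h2 h4 hn
  obtain ⟨S, hS1, hS2⟩ := hS n hn
  have hn7 : (7 : ℝ) ≤ n := by exact_mod_cast (by omega : 7 ≤ n)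
  have hn1 : (1 : ℝ) ≤ n := by linarith
  have hn0 : (0 : ℝ) < n := by linarith
  have hzm : ∀ m : ℕ, n ≤ m + 2 → m ≤ 7 * n → (z m : ℝ) ≤ (n : ℝ) ^ δ := by
    intro m k1 k2
    refine (hm1 m (by omega)).trans ?_
    have k3 : (m : ℝ) ≤ (n : ℝ) * n := by
      have : (m : ℝ) ≤ 7 * n := by exact_mod_cast k2
      nlinarith
    calc (m : ℝ) ^ (δ / 2) ≤ ((n : ℝ) * n) ^ (δ / 2) := by gcongr
      _ = (n : ℝ) ^ δ := by
        rw [Real.mul_rpow hn0.le hn0.le, ← Real.rpow_add hn0]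
        congr 1
        ring
  have hsub : S ⊆ goodG {m | Rough z m} n := by
    intro X hX
    obtain ⟨hX1, hX2, hX3, hX4, -, -⟩ := hS2 X hX
    have hV : X ∈ vec n := mem_vec.2 hX1
    have hlow := val_low hV
    have hup := val_up hV
    have h6 : ((val X : ℕ) : ℤ) = pf X := val_cast X
    have h6' : ((val X - 2 : ℕ) : ℤ) = pf X - 2 := by omega
    unfold goodG
    refine mem_filter.2 ⟨hV, ?_, ?_⟩
    · intro q hqp hqz hqP
      have h7 : (q : ℤ) ∣ pf X * (pf X - 2) := by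
        apply Dvd.dvd.mul_right
        rw [← h6]
        exact_mod_cast hqP
      have g1 := hX2 q hqp h7
      have g2 := hzm (val X) (by omega) hup
      have g3 : (q : ℝ) ≤ z (val X) := by exact_mod_cast hqz
      linarith
    · intro q hqp hqz hqP
      have h7 : (q : ℤ) ∣ pf X * (pf X - 2) := by
        apply Dvd.dvd.mul_left
        rw [← h6']
        exact_mod_cast hqP
      have g1 := hX2 q hqp h7
      have g2 := hzm (val X - 2) (by omega) (by omega)
      have g3 : (q : ℝ) ≤ z (val X - 2) := by exact_mod_cast hqz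
      linarith
  calc (n : ℝ) ^ (1 - ε) = 1 * (n : ℝ) ^ (1 - ε) := by ring
    _ ≤ (c * (n : ℝ) ^ (ε / 2)) * (n : ℝ) ^ (1 - ε) := by
        apply mul_le_mul_of_nonneg_right _ (by positivity)
        rwa [div_le_iff₀ hc, mul_comm] at h2
    _ = c * (n : ℝ) ^ (1 - ε / 2) := by
        rw [mul_assoc, ← Real.rpow_add hn0]
        congr 2
        ring
    _ ≤ S.card := hS1
    _ ≤ _ := by exact_mod_cast card_le_card hsub

/-- the expected number is large -/
lemma expected_low (ε : ℝ) (hε : 0 < ε) (z : ℕ → ℕ)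
    (hmany : ∀ᶠ n : ℕ in atTop, Odd n → (n : ℝ) ^ (1 - ε / 2) ≤ (goodG {m | Rough z m} n).card) :
    ∀ᶠ n : ℕ in atTop, Odd n → 2 * (n : ℝ) ^ (1 - ε) ≤
      ∑ X ∈ goodG {m | Rough z m} n, rho z (val X - 2) * rho z (val X) := by
  classical
  have e1 := (isLittleO_log_rpow_rpow_atTop (2 : ℝ) (show (0 : ℝ) < ε / 2 by positivity)).bound
    (show (0 : ℝ) < 1 / 8 by norm_num)
  filter_upwards [hmany, tendsto_natCast_atTop_atTop.eventually e1, eventually_ge_atTop 7] with n h1 h2 h3 hn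
  have h1' := h1 hn
  have hn7 : (7 : ℝ) ≤ n := by exact_mod_cast h3
  have hn0 : (0 : ℝ) < n := by linarith
  have hL : 0 < Real.log n := Real.log_pos (by linarith)
  rw [Real.norm_eq_abs, Real.norm_eq_abs, abs_of_nonneg (Real.rpow_nonneg hL.le _),
    abs_of_nonneg (Real.rpow_nonneg hn0.le _)] at h2
  have e5 : Real.log n ^ (2 : ℝ) = Real.log n ^ (2 : ℕ) := by
    rw [← Real.rpow_natCast]; norm_num
  rw [e5] at h2
  have hlog7 : Real.log (7 * n) ≤ 2 * Real.log n := by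
    rw [Real.log_mul (by norm_num) hn0.ne']
    have := Real.log_le_log (by norm_num) hn7
    linarith
  have hval : ∀ m : ℕ, n ≤ m + 2 → m ≤ 7 * n → Rough z m → (1 / 2) / Real.log n ≤ rho z m := by
    intro m k1 k2 k3
    have hm2 : (1 : ℝ) < m := by exact_mod_cast (by omega : 1 < m)
    have hLm : 0 < Real.log m := Real.log_pos hm2
    have k4 : Real.log m ≤ 2 * Real.log n := by
      refine le_trans (Real.log_le_log (by linarith) ?_) hlog7
      exact_mod_cast k2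
    unfold rho
    rw [if_pos k3, div_le_div_iff₀ hL hLm]
    have := W_ge (z m)
    nlinarith
  have hterm : ∀ X ∈ goodG {m | Rough z m} n, ((1 / 2) / Real.log n) ^ 2 ≤ rho z (val X - 2) * rho z (val X) := by
    intro X hX
    obtain ⟨hX1, hX2, hX3⟩ := mem_filter.1 hX
    have g1 := val_low hX1
    have g2 := val_up hX1
    have a1 := hval (val X) (by omega) g2 hX2
    have a2 := hval (val X - 2) (by omega) (by omega) hX3
    rw [pow_two]
    exact mul_le_mul a2 a1 (by positivity) (le_trans (by positivity) a2)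
  refine le_trans ?_ (sum_le_sum hterm)
  rw [sum_const, nsmul_eq_mul]
  have h6 : 2 * (n : ℝ) ^ (1 - ε) ≤ (n : ℝ) ^ (1 - ε / 2) * ((1 / 2) / Real.log n) ^ 2 := by
    rw [div_pow, ← mul_div_assoc, le_div_iff₀ (by positivity)]
    calc 2 * (n : ℝ) ^ (1 - ε) * Real.log n ^ 2 ≤ 2 * (n : ℝ) ^ (1 - ε) * (1 / 8 * (n : ℝ) ^ (ε / 2)) := by gcongr
      _ = (1 / 4) * ((n : ℝ) ^ (1 - ε) * (n : ℝ) ^ (ε / 2)) := by ring
      _ = (1 / 4) * (n : ℝ) ^ (1 - ε / 2) := by
        rw [← Real.rpow_add hn0]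
        congr 2
        ring
      _ = _ := by ring
  refine h6.trans ?_
  gcongr

end Pool.Agent.N233.GM
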