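import Mathlib
import Pool.Agent.R494.SPL3
import Pool.Agent.R154.FT.Main3
import Pool.Agent.N233.GM.Law

/-! Four squares with `2 ^ (x + y) + 2 ^ (z + w) + 1` chosen, growing sieve (helper233; the proof follows
Pool.Agent.R494.SPL3). -/

set_option autoImplicit false
set_option linter.unusedSectionVars false

namespace Pool.Agent.N233.GM

open Filter Asymptotics MeasureTheory Pool.Agent.R494.SPL
open Pool.Agent.R528.RM
open scoped Topology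

lemma logN : Tendsto (fun n : ℕ => Real.log (n : ℝ)) atTop atTop :=
  Real.tendsto_log_atTop.comp tendsto_natCast_atTop_atTop

/-- a sieve up to a constant times `(log log n) ^ 2` is short -/
lemma short (c : ℝ) (z : ℕ → ℕ) (hz : ∀ᶠ n : ℕ in atTop, (z n : ℝ) ≤ c * Real.log (Real.log n) ^ 2) :
    ∀ᶠ n : ℕ in atTop, W (z n) / Real.log n < 1 := by
  obtain ⟨δ, hδ, h⟩ := W_small
  apply h z
  have h1 := (isLittleO_log_rpow_rpow_atTop (2 : ℝ) hδ).bound (show (0 : ℝ) < 1 / (|c| + 1) by positivity)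
  have h3 : ∀ᶠ n : ℕ in atTop, Real.log (Real.log (n : ℝ)) ≤ Real.log n := by
    filter_upwards [logN.eventually_ge_atTop 1] with n hn
    have := Real.log_le_sub_one_of_pos (show (0 : ℝ) < Real.log n by linarith)
    linarith
  filter_upwards [hz, tendsto_natCast_atTop_atTop.eventually h1, h3, logN.eventually_ge_atTop 1,
    eventually_ge_atTop 1] with n g1 g2 g3 g4 g5
  have hn0 : (0 : ℝ) < n := by exact_mod_cast g5
  rw [Real.norm_eq_abs, Real.norm_eq_abs, abs_of_nonneg (Real.rpow_nonneg (by linarith) _),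
    abs_of_nonneg (Real.rpow_nonneg hn0.le _)] at g2
  have e5 : Real.log n ^ (2 : ℝ) = Real.log n ^ (2 : ℕ) := by
    rw [← Real.rpow_natCast]; norm_num
  rw [e5] at g2
  have h4 : 0 ≤ Real.log (Real.log (n : ℝ)) := Real.log_nonneg g4
  calc (z n : ℝ) ≤ c * Real.log (Real.log n) ^ 2 := g1
    _ ≤ (|c| + 1) * Real.log n ^ 2 := by
        apply mul_le_mul _ _ (by positivity) (by positivity)
        · have := le_abs_self c
          linarith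
        · exact pow_le_pow_left₀ h4 g3 2
    _ ≤ (|c| + 1) * (1 / (|c| + 1) * (n : ℝ) ^ δ) := by gcongr
    _ = (n : ℝ) ^ δ := by field_simp

/-- many rough quadruples -/
lemma many2 (ε : ℝ) (hε : 0 < ε) : ∃ c : ℝ, 0 < c ∧ ∀ z : ℕ → ℕ,
    (∀ᶠ n : ℕ in atTop, (z n : ℝ) ≤ c * Real.log (Real.log n) ^ 2) →
    ∀ᶠ n : ℕ in atTop, Odd n → ∃ T ⊆ quad n, (n : ℝ) ^ (1 - ε) ≤ (T.card : ℝ) ∧
      ∀ v ∈ T, Rough z (val2 v) := by
  obtain ⟨c, hc, n0, hT⟩ := Pool.Agent.R154.FT.main3 ε hε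
  refine ⟨c, hc, fun z hz => ?_⟩
  obtain ⟨m1, hm1⟩ := eventually_atTop.1 hz
  filter_upwards [eventually_ge_atTop n0, eventually_ge_atTop 64, sqrt_tendsto.eventually_ge_atTop (m1 + 3)] with n h1 h2 h3 hn
  obtain ⟨T, hT1, hT2⟩ := hT n h1 hn
  have hn64 : (64 : ℝ) ≤ n := by exact_mod_cast h2
  have hn0 : (0 : ℝ) < n := by linarith
  have hsub : T ⊆ quad n := by
    rintro ⟨x, y, a, b⟩ hX
    exact mem_quad.2 (hT2 x y a b hX).1
  refine ⟨T, hsub, hT1, ?_⟩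
  rintro ⟨x, y, a, b⟩ hX q hq hqz hqd
  have g1 := (hT2 x y a b hX).2 q hq hqd
  obtain ⟨g2, g3⟩ := log_val2 (by omega) (hsub hX)
  have g4 := val2_low (hsub hX)
  have g5 := hm1 (val2 (x, y, a, b)) (by omega)
  have hv3 : (3 : ℝ) ≤ (val2 (x, y, a, b) : ℝ) := by exact_mod_cast (by omega : 3 ≤ val2 (x, y, a, b))
  have hl1 : 1 ≤ Real.log (val2 (x, y, a, b) : ℝ) := by
    rw [Real.le_log_iff_exp_le (by linarith)]
    have := Real.exp_one_lt_d9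
    linarith
  have hll0 : 0 ≤ Real.log (Real.log (val2 (x, y, a, b) : ℝ)) := Real.log_nonneg hl1
  have hll : Real.log (Real.log (val2 (x, y, a, b) : ℝ)) ≤ Real.log n := by
    refine (Real.log_le_log g2 g3).trans ?_
    rw [Real.log_mul (by norm_num) (Real.rpow_pos_of_pos hn0 _).ne', Real.log_rpow hn0]
    have h5 : Real.log 64 ≤ Real.log n := Real.log_le_log (by norm_num) hn64
    have h6 : Real.log 64 = 3 * Real.log 4 := by
      rw [show (64 : ℝ) = 4 ^ 3 by norm_num, Real.log_pow]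
      norm_num
    have h7 : 0 ≤ Real.log 4 := Real.log_nonneg (by norm_num)
    linarith
  have h8 : c * Real.log (Real.log (val2 (x, y, a, b) : ℝ)) ^ 2 ≤ c * Real.log n ^ 2 := by gcongr
  have h9 : (q : ℝ) ≤ z (val2 (x, y, a, b)) := by exact_mod_cast hqz
  linarith

/-- the expected number is large -/
lemma low_E2 (ε : ℝ) (hε : 0 < ε) : ∃ c : ℝ, 0 < c ∧ ∀ z : ℕ → ℕ,
    (∀ᶠ n : ℕ in atTop, (z n : ℝ) ≤ c * Real.log (Real.log n) ^ 2) →
    ∀ᶠ n : ℕ in atTop, Odd n → 2 * (n : ℝ) ^ (1 / 2 - ε) ≤ ∑ v ∈ quad n, rho1 z (val2 v) := by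
  classical
  obtain ⟨c, hc, hmany⟩ := many2 (ε / 2) (by positivity)
  refine ⟨c, hc, fun z hz => ?_⟩
  have e2 : ∀ᶠ n : ℕ in atTop, 8 ≤ (n : ℝ) ^ (ε / 2) :=
    ((tendsto_rpow_atTop (by positivity)).comp tendsto_natCast_atTop_atTop).eventually_ge_atTop _
  filter_upwards [hmany z hz, e2, eventually_ge_atTop 1] with n h1 h2 h5 hn
  obtain ⟨S, hsub, hS1, hS2⟩ := h1 hn
  have hn1 : (1 : ℝ) ≤ n := by exact_mod_cast h5
  have hn0 : (0 : ℝ) < n := by linarith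
  have hnh : 1 ≤ (n : ℝ) ^ (1 / 2 : ℝ) := Real.one_le_rpow hn1 (by norm_num)
  have h6 : ∀ v ∈ S, 1 / (4 * (n : ℝ) ^ (1 / 2 : ℝ)) ≤ rho1 z (val2 v) := by
    intro v hv
    obtain ⟨g1, g2⟩ := log_val2 h5 (hsub hv)
    unfold rho1
    rw [if_pos (hS2 v hv)]
    apply le_min
    · rw [div_le_one (by linarith)]
      linarith
    · have := W_ge (z (val2 v))
      gcongr
  calc 2 * (n : ℝ) ^ (1 / 2 - ε) = 8 * ((n : ℝ) ^ (1 / 2 - ε) / 4) := by ring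
    _ ≤ (n : ℝ) ^ (ε / 2) * ((n : ℝ) ^ (1 / 2 - ε) / 4) := by gcongr
    _ = (n : ℝ) ^ (1 - ε / 2) * (1 / (4 * (n : ℝ) ^ (1 / 2 : ℝ))) := by
        have e1 : (n : ℝ) ^ (1 - ε / 2) = (n : ℝ) ^ (ε / 2) * (n : ℝ) ^ (1 / 2 - ε) * (n : ℝ) ^ (1 / 2 : ℝ) := by
          rw [← Real.rpow_add hn0, ← Real.rpow_add hn0]
          congr 1
          ring
        rw [e1]
        field_simp
    _ ≤ S.card * (1 / (4 * (n : ℝ) ^ (1 / 2 : ℝ))) := by gcongr
    _ = ∑ _v ∈ S, 1 / (4 * (n : ℝ) ^ (1 / 2 : ℝ)) := by rw [Finset.sum_const, nsmul_eq_mul]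
    _ ≤ ∑ v ∈ S, rho1 z (val2 v) := Finset.sum_le_sum h6
    _ ≤ _ := Finset.sum_le_sum_of_subset_of_nonneg hsub fun v _ _ => (rho1_bounds z _).1

section

variable {Ω : Type} {m0 : MeasurableSpace Ω} {μ : Measure Ω} [IsProbabilityMeasure μ]
  {ℱ : Filtration ℕ m0} {A : ℕ → Set Ω}

theorem law2g (hA : ∀ n, MeasurableSet[ℱ n] (A n)) (z : ℕ → ℕ)
    (hprof : ∀ᵐ ω ∂μ, ∀ ε : ℝ, 0 < ε → ∀ᶠ n : ℕ in atTop,
      |dens μ ℱ A n ω - rho1 z (n + 1)| ≤ ε * rho1 z (n + 1))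
    (hlow : ∀ᶠ n : ℕ in atTop, Odd n → 2 * (n : ℝ) ^ (1 / 2 - 1 / 4 : ℝ) ≤ ∑ v ∈ quad n, rho1 z (val2 v)) :
    ∀ᵐ ω ∂μ, ∀ η : ℝ, 0 < η → ∀ᶠ n : ℕ in atTop, Odd n →
      |∑ v ∈ quad n, In A (val2 v) ω - ∑ v ∈ quad n, rho1 z (val2 v)| ≤
        η * ∑ v ∈ quad n, rho1 z (val2 v) := by
  have h := weighted_law (μ := μ) (ℱ := ℱ) (A := A) hA (fun n => (rho1_bounds z n).1) hprof
    quad val2 (fun n => ⌊(n : ℝ) ^ (1 / 8 : ℝ)⌋₊) 1 floor_le_n few2 Nat.sqrt sqrt_tendsto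
    (Eventually.of_forall fun n v hv => val2_low hv)
  filter_upwards [h] with ω hω η hη
  obtain ⟨K, hK0, hK⟩ := hω (η / 2) (by positivity)
  filter_upwards [hK, err2 K (η / 2) hK0 (by positivity), hlow, eventually_ge_atTop 1] with n h1 h2 h3 h6 hn
  have h4 := h3 hn
  have h7 : (0 : ℝ) < (n : ℝ) ^ (1 / 2 - 1 / 4 : ℝ) := Real.rpow_pos_of_pos (by exact_mod_cast h6) _
  have h5 : η / 2 * (n : ℝ) ^ (1 / 2 - 1 / 4 : ℝ) ≤ η / 2 * ∑ v ∈ quad n, rho1 z (val2 v) := by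
    apply mul_le_mul_of_nonneg_left _ (by positivity)
    linarith
  linarith

end

end Pool.Agent.N233.GM
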